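import Pool.Agent.helper17.RX.Spec

/-!
# rx:LBA: the batches as sets of sites of `V`
-/

set_option autoImplicit false

namespace TP.TW

open DP MeasureTheory Finset

theorem LBA_inj {n : ℕ} : Function.Injective (phi (n := n)) := by
  intro p q h
  simp only [phi, Prod.mk.injEq] at h
  obtain ⟨h1, h2⟩ := h
  ext <;> omega

theorem LBA_br {n : ℕ} (p : Fin n × Fin n) : br (phi p) = phi p := by
  apply br_of_even
  simp only [phi]
  omega

open Classical in
theorem LBA_exch {n : ℕ} (S : (Fin n × Fin n → Bool) → Finset (Fin n × Fin n)) :
    ∑ p : Fin n × Fin n, (#{x : Fin n × Fin n → Bool | p ∈ S x} : ℝ) =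
      ∑ x : Fin n × Fin n → Bool, (#(S x) : ℝ) := by
  simp only [Finset.card_filter, Nat.cast_sum]
  rw [Finset.sum_comm]
  apply Finset.sum_congr rfl
  intro x _
  rw [← Nat.cast_sum, ← Finset.card_filter]
  congr 2
  ext p
  simp

theorem LBA (br2 : BR2_stmt) : LBA_stmt := by
  classical
  intro n b hb
  refine ⟨⟨?_, ?_, ?_⟩, ?_, ?_⟩
  · intro β
    simp [lb]
  · intro i β
    refine ⟨?_, ?_⟩
    · unfold lb
      apply Finset.image_subset_image
      apply Finset.biUnion_subset_biUnion_of_subset_left
      intro l hl
      rw [Finset.mem_range] at hl ⊢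
      omega
    · unfold lb
      exact Finset.image_subset_image (Finset.subset_univ _)
  · intro i β β' h
    have key : ∀ l < i, b l (fun p => β (phi p)) = b l (fun p => β' (phi p)) := by
      intro l hl
      apply hb
      intro k hk p hp
      apply h
      unfold lb
      apply Finset.mem_image_of_mem
      rw [Finset.mem_biUnion]
      exact ⟨k, Finset.mem_range.2 (by omega), hp⟩
    unfold lb
    congr 1
    apply Finset.biUnion_congr rfl
    intro l hl
    rw [Finset.mem_range] at hl
    exact key l (by omega)
  · intro v hv
    obtain ⟨p, -, rfl⟩ := Finset.mem_image.1 hv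
    exact LBA_br p
  · intro R
    rw [Finset.sum_image fun p _ q _ h => LBA_inj h]
    have h1 : ∀ p : Fin n × Fin n, Pr {β | phi p ∈ lb b R β} =
        (#{x : Fin n × Fin n → Bool | p ∈ (range (R - 1)).biUnion fun l => b l x} : ℝ) /
          2 ^ (n * n) := by
      intro p
      have h0 := br2 n (fun x => p ∈ (range (R - 1)).biUnion fun l => b l x)
      have h3 : {β : V → Bool | phi p ∈ lb b R β} =
          {β : V → Bool | p ∈ (range (R - 1)).biUnion fun l => b l fun q => β (phi q)} := by
        ext β
        simp only [Set.mem_setOf_eq, lb]
        constructor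
        · intro h
          obtain ⟨q, hq, hqp⟩ := Finset.mem_image.1 h
          exact LBA_inj hqp ▸ hq
        · intro h
          exact Finset.mem_image_of_mem _ h
      rw [h3]
      refine h0.trans ?_
      congr 2
      apply congrArg Finset.card
      ext x
      simp only [Finset.mem_filter]
    rw [Finset.sum_congr rfl fun p _ => h1 p, ← Finset.sum_div]
    unfold cost
    apply div_le_div_of_nonneg_right _ (by positivity)
    have h2 := LBA_exch (n := n) (fun x => (range (R - 1)).biUnion fun l => b l x)
    calc _ = ∑ x : Fin n × Fin n → Bool, (#((range (R - 1)).biUnion fun l => b l x) : ℝ) := by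
          rw [← h2]
      _ ≤ _ := by
          apply Finset.sum_le_sum
          intro x _
          norm_cast
          apply Finset.card_le_card
          apply Finset.biUnion_subset_biUnion_of_subset_left
          intro l hl
          rw [Finset.mem_range] at hl ⊢
          omega

end TP.TW
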